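import Pool.Agent.Y154.HT.Main

/-!
# The standard conjecture of Hodge type for products of almost all abelian varieties with arbitrary
varieties over finite fields

Let `g i` (`i` in a finite set `I`) be positive integers, `r` an integer smaller than all the `g i`
and `E` a number field.  For a prime power `q` let `S i` be the set of the characteristic
polynomials of Frobenius of the ordinary abelian varieties of dimension `g i` over the field with `q`
elements, or of all abelian varieties of dimension `g i`, or any set in between (by Weil, Honda and
Tate its elements correspond to the isogeny classes).

For all families `F i` in `S i` with the exception of a proportion `O (q ^ (-1 / 6) log q)`, the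
constant depending only on `g` and `E`, the following holds for all `s > 0`, all abelian varieties
`A` over the field with `q ^ s` elements, isogenous to products of powers of abelian varieties
coming from the field with `q` elements with the characteristic polynomials `F i`, and **every**
smooth projective variety `Y` over the field with `q ^ s` elements such that the eigenvalues of
Frobenius on the cohomology of `Y` and their conjugates generate a group of rank at most `r` modulo
the group of the numbers with a power in `E` (all varieties and their divisors are considered over
the algebraic closure):

* the conjecture of Hodge type, with homological equivalence, holds for `A × Y` and the sum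
  `D × Y + A × B` of two ample divisors if and only if it holds for `(A, D)` and for `(Y, B)`;
* every divisor on `A × Y` is homologically equivalent to such a sum (so for ample divisors the
  first statement is about all polarizations of `A × Y`);
* homological and numerical equivalence coincide on `A × Y` if and only if they coincide on `Y`,
  and in this case the conjecture of Hodge type, with numerical equivalence, holds for `A × Y` if
  and only if it holds for `A` and for `Y`.

Nothing else is assumed on `Y`: no conjecture of Lefschetz type `A` or `B`, no Tate conjecture, no
semisimplicity of Frobenius. (The hard Lefschetz theorem is true for ample divisors by a theorem of
Deligne.)  For `A` and an ample divisor the conjecture of Hodge type is known by a theorem of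
Milne, since all Tate classes on (the powers of) `A` are generated by classes of divisors.  So the
conjecture of Hodge type for `A × Y` is equivalent to the one for `Y`.

For `r = 0` the assumption on the eigenvalues is: the eigenvalues of Frobenius on the cohomology of
`Y` and their conjugates have powers in `E`.  If `Y` is **any given** variety over the field with
`q'` elements, one can take for `E` the field generated by the eigenvalues of Frobenius and their
conjugates, and applies the theorem to the powers `q` of `q'`: almost all abelian varieties `A` of
given dimension have the property that the conjecture for `A × Y` is equivalent to the conjecture
for `Y`.  For instance it holds for `A × Y` if `Y` is a surface, or a fourfold for which it is known.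

The idea of the proof: by a sieve (helper521, helper484) almost all families are such that each pair
`α`, `q / α` of roots can be exchanged by a Galois automorphism which fixes all the other roots of
all the `F i` and all elements of `E`.  It follows that the classes of algebraic cycles on `A × Y`
are combinations of products of intersections of divisors on `A` with classes on `Y`.  The
components of a primitive algebraic class on `A × Y` in an orthogonal basis of the classes of cycles
on `A` are in the largest rational Lefschetz structure in the algebraic classes of `Y` (an argument
of helper132), and the form of the conjecture of Hodge type is an orthogonal sum of positive
multiples of that of `Y`.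
-/

set_option autoImplicit false

universe u v

namespace Pool.Agent.Y154.HT.AlmostAllTimesAny

open Polynomial Pool.Agent.W521.Descent Pool.Agent.W521.Count Pool.Agent.W484.TB
  Pool.Agent.Y154.HT

/-- **The conjecture of Hodge type for the products of almost all abelian varieties with all
varieties of small Frobenius rank over a number field.**  Here `weilPolys q g` is the set of monic
integral polynomials of degree `2 g` with constant term `q ^ g` and all roots of absolute value
`√q`; `ordinaryWeilPolys q g` is the subset of those whose coefficient of index `g` is prime to
`q`. -/
theorem result {I : Type} [Fintype I] (g : I → ℕ) (r : ℕ) (hr : ∀ i, r < g i)
    (E : IntermediateField ℚ ℂ) [FiniteDimensional ℚ E] :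
    ∃ C : ℝ, ∀ q : ℕ, IsPrimePow q → ∀ S : I → Set ℤ[X],
      (∀ i, ordinaryWeilPolys q (g i) ⊆ S i ∧ S i ⊆ weilPolys q (g i)) →
      (∀ i, (S i).Finite ∧ (S i).Nonempty) ∧
      ({F : I → ℤ[X] | (∀ i, F i ∈ S i) ∧ ¬ HodgeForRankE.{u, v} E q r F}.ncard : ℝ) ≤
        C * (Real.log q * (q : ℝ) ^ (-(1 / 6) : ℝ)) * ∏ i, ((S i).ncard : ℝ) :=
  count_of_goodU (splitPrimes E) (dense_splitPrimes E) g
    (fun i => (Nat.zero_le r).trans_lt (hr i)) (fun q F => HodgeForRankE.{u, v} E q r F)
    fun _ hq x hx => hodgeForRankE_of_good g E hq.pos.ne' r hr x hx

end Pool.Agent.Y154.HT.AlmostAllTimesAny
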