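import Pool.Agent.TH132.A.Hodge

/-!
# The conjecture of Hodge type for a product implies it for the factors
-/

set_option autoImplicit false

open CategoryTheory AlgebraicGeometry

universe u v

namespace Pool.Agent.Y154.HT

open Pool.Agent.H914 Pool.Agent.H914.VarClass Pool.Agent.H914.VarClass.Obj
  Pool.Agent.H914.WeilCohomology Pool.Agent.H281R3.HT Pool.Agent.W552 Pool.Agent.TH132.A

variable {k : Type u} [Field k] {𝒱 : VarClass k} {ops : CycleOps 𝒱}
  {W : WeilCohomology.{u, v} ops} {X U : 𝒱.Obj} {D : X.Cycles} {B : U.Cycles}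
  {f : Module.End W.K (W.H X)} {g : Module.End W.K (W.H U)}

lemma one_ne_of_deg {D : X.Cycles} (hD : X.IsCyc 1 D)
    (h : 0 < X.V.degCycle (divPow ops D X.dim X.V.fundCycle)) : (1 : W.H X) ≠ 0 := by
  intro h0
  have h1 := divPow_mem (ops := ops) hD X.dim X.V.fundCycle_mem
  rw [zero_add] at h1
  have h2 := W.tr_cl h1
  rw [← mul_one (W.cl X _), h0, mul_zero, map_zero] at h2
  rw [← Rat.cast_zero] at h2
  rw [← Rat.cast_injective (α := W.K) h2] at h
  exact lt_irrefl _ h

/-- The value of the form on the unit is positive if the degree is positive. -/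
lemma bf_one_of_deg (tf : Lw W X D f)
    (h : 0 < X.V.degCycle (divPow ops D X.dim X.V.fundCycle)) :
    ∃ q : ℚ, 0 < q ∧ bf W X D f 1 1 = q := by
  have hp : W.cl X (divPow ops D (X.dim - 2 * 0 + 1) X.V.fundCycle) = 0 := by
    rw [cl_divPow, W.cl_fund]
    exact e_pow_zero tf.hD (i := 0) (by omega) (W.one_mem X)
  have h2 := tf.form_prim (j := 0) (by omega) X.V.fundCycle_mem hp
  have h1 := divPow_mem (ops := ops) tf.hD X.dim X.V.fundCycle_mem
  rw [zero_add] at h1
  have h3 : X.V.degCycle (ops.mul X.V.fundCycle (divPow ops D (X.dim - 2 * 0) X.V.fundCycle)) =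
      X.V.degCycle (divPow ops D X.dim X.V.fundCycle) := by
    have h4 := ops.mul_mem (X.V.fundCycle_mem) h1
    rw [zero_add] at h4
    apply Rat.cast_injective (α := W.K)
    rw [mul_zero, Nat.sub_zero, ← W.tr_cl h4, ← W.tr_cl h1, W.cl_mul, W.cl_fund, one_mul]
  rw [W.cl_fund, h3] at h2
  refine ⟨_, ?_, h2⟩
  rw [pow_zero, one_mul]
  exact mul_pos (by positivity) h

/-- The conjecture of Hodge type for the product implies it for the second factor. -/
theorem hodge_right (tf : Lw W X D f) (tg : Lw W U B g)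
    (hdeg : 0 < X.V.degCycle (divPow ops D X.dim X.V.fundCycle))
    (hH : HodgeType W (X.prod U) (ops.pull (fst X U) D + ops.pull (snd X U) B)) :
    HodgeType W U B := by
  intro j hj z hz hprim hz0
  have F := tf.prod tg
  set y := ops.pull (snd X U) z with hy
  have hyc : (X.prod U).IsCyc j y := ops.pull_mem _ hz
  have hycl : W.cl (X.prod U) y = ext W (1 : W.H X) (W.cl U z) := by
    rw [hy, W.cl_pull, ext, map_one, one_mul]
  have hj' : 2 * j ≤ (X.prod U).dim := by rw [dim_prod]; omega
  have hDE : W.cl (X.prod U) (ops.pull (fst X U) D + ops.pull (snd X U) B) =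
      W.map (fst X U) (W.cl X D) + W.map (snd X U) (W.cl U B) := by
    rw [map_add, W.cl_pull, W.cl_pull]
  have hyp : W.cl (X.prod U) (divPow ops (ops.pull (fst X U) D + ops.pull (snd X U) B)
      ((X.prod U).dim - 2 * j + 1) y) = 0 := by
    rw [cl_divPow, hycl, theta_pow tg.hD hDE]
    refine Finset.sum_eq_zero fun i hi => ?_
    have hi' := Finset.mem_range.1 hi
    rw [dim_prod] at hi' ⊢
    by_cases h2 : X.dim < i
    · rw [e_pow_zero (W := W) tf.hD (i := 0) (by omega) (W.one_mem X)]
      simp [ext]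
    · rw [show X.dim + U.dim - 2 * j + 1 - i = (X.dim - i) + (U.dim - 2 * j + 1) by omega,
        pow_add, Module.End.mul_apply, ← cl_divPow, hprim, map_zero]
      simp [ext]
  have hy0 : W.cl (X.prod U) y ≠ 0 := by
    rw [hycl]
    intro h0
    exact hz0 (one_ext_inj (one_ne_of_deg tf.hD hdeg) h0)
  obtain ⟨q, hq, hq'⟩ := bf_one_of_deg tf hdeg
  have h2 := F.form_prim hj' hyc hyp
  have h3 := hH j hj' y hyc hyp hy0
  rw [hycl, tf.bf_ext tg, hq', tg.form_prim hj hz hprim, ← Rat.cast_mul] at h2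
  have h4 := Rat.cast_injective (α := W.K) h2
  have h5 : 0 < q * ((-1) ^ j * (((U.dim - 2 * j).factorial : ℚ)⁻¹ *
        U.V.degCycle (ops.mul z (divPow ops B (U.dim - 2 * j) z)))) := by
    rw [h4, mul_left_comm]
    exact mul_pos (by positivity) h3
  have h6 := pos_of_mul_pos_right h5 hq.le
  rw [mul_left_comm] at h6
  exact pos_of_mul_pos_right h6 (by positivity)

/-- The conjecture of Hodge type for the product implies it for the first factor. -/
theorem hodge_left (tf : Lw W X D f) (tg : Lw W U B g)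
    (hdeg : 0 < U.V.degCycle (divPow ops B U.dim U.V.fundCycle))
    (hH : HodgeType W (X.prod U) (ops.pull (fst X U) D + ops.pull (snd X U) B)) :
    HodgeType W X D := by
  intro j hj z hz hprim hz0
  have F := tf.prod tg
  set y := ops.pull (fst X U) z with hy
  have hyc : (X.prod U).IsCyc j y := ops.pull_mem _ hz
  have hycl : W.cl (X.prod U) y = ext W (W.cl X z) (1 : W.H U) := by
    rw [hy, W.cl_pull, ext, map_one, mul_one]
  have hj' : 2 * j ≤ (X.prod U).dim := by rw [dim_prod]; omega
  have hDE : W.cl (X.prod U) (ops.pull (fst X U) D + ops.pull (snd X U) B) =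
      W.map (fst X U) (W.cl X D) + W.map (snd X U) (W.cl U B) := by
    rw [map_add, W.cl_pull, W.cl_pull]
  have hyp : W.cl (X.prod U) (divPow ops (ops.pull (fst X U) D + ops.pull (snd X U) B)
      ((X.prod U).dim - 2 * j + 1) y) = 0 := by
    rw [cl_divPow, hycl, theta_pow tg.hD hDE]
    refine Finset.sum_eq_zero fun i hi => ?_
    have hi' := Finset.mem_range.1 hi
    rw [dim_prod] at hi' ⊢
    by_cases h2 : U.dim < X.dim + U.dim - 2 * j + 1 - i
    · rw [e_pow_zero (W := W) (X := U) (m := X.dim + U.dim - 2 * j + 1 - i) tg.hD (i := 0)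
        (by omega) (W.one_mem U)]
      simp [ext]
    · rw [show i = (i - (X.dim - 2 * j + 1)) + (X.dim - 2 * j + 1) by omega,
        pow_add, Module.End.mul_apply, ← cl_divPow, hprim, map_zero]
      simp [ext]
  have hy0 : W.cl (X.prod U) y ≠ 0 := by
    rw [hycl]
    intro h0
    exact hz0 (ext_one_inj (one_ne_of_deg tg.hD hdeg) h0)
  obtain ⟨q, hq, hq'⟩ := bf_one_of_deg tg hdeg
  have h2 := F.form_prim hj' hyc hyp
  have h3 := hH j hj' y hyc hyp hy0
  rw [hycl, tf.bf_ext tg, hq', tf.form_prim hj hz hprim, ← Rat.cast_mul] at h2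
  have h4 := Rat.cast_injective (α := W.K) h2
  have h5 : 0 < ((-1) ^ j * (((X.dim - 2 * j).factorial : ℚ)⁻¹ *
        X.V.degCycle (ops.mul z (divPow ops D (X.dim - 2 * j) z)))) * q := by
    rw [h4, mul_left_comm]
    exact mul_pos (by positivity) h3
  have h6 := pos_of_mul_pos_left h5 hq.le
  rw [mul_left_comm] at h6
  exact pos_of_mul_pos_right h6 (by positivity)

lemma mem_tens_of_mix (hnum : HomEqNum W X)
    (hmix : ∀ j z, (X.prod U).IsCyc j z → W.cl (X.prod U) z ∈
      Submodule.span W.K {w | ∃ x y, AS W X x ∧ w = ext W x y}) :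
    ∀ z, AS W (X.prod U) z → z ∈ tens W X U := by
  intro z hz
  refine mem_tens hnum hz ?_
  refine AS.ind (p := fun z => z ∈ Submodule.span W.K {w | ∃ x y, AS W X x ∧ w = ext W x y})
    ?_ (fun x y hx hy => Submodule.add_mem _ hx hy) hz
  rintro c _ ⟨z, hz, rfl⟩
  exact hmix c z hz

/-- Divisors on the product. -/
theorem divisor_split (hnum : HomEqNum W X)
    (hmix : ∀ j z, (X.prod U).IsCyc j z → W.cl (X.prod U) z ∈
      Submodule.span W.K {w | ∃ x y, AS W X x ∧ w = ext W x y}) {C : (X.prod U).Cycles}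
    (hC : (X.prod U).IsCyc 1 C) : ∃ (D : X.Cycles) (B : U.Cycles), X.IsCyc 1 D ∧ U.IsCyc 1 B ∧
      W.cl _ C = W.cl (X.prod U) (ops.pull (fst X U) D + ops.pull (snd X U) B) := by
  obtain ⟨D, B, hD, hB, h⟩ := div_split (clSplit_of_tens (mem_tens_of_mix hnum hmix)) hC
  exact ⟨D, B, hD, hB, by rw [h, map_add, W.cl_pull, W.cl_pull]⟩

/-- **The conjecture of Hodge type for a product on which all algebraic classes are combinations
of products of algebraic classes of the first factor and classes of the second factor.**  On the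
second factor only the hard Lefschetz theorem is assumed. -/
theorem hodge_iff (hD : X.IsCyc 1 D) (hB : U.IsCyc 1 B) (hHLX : HardLefschetz W X D)
    (hHLU : HardLefschetz W U B) (hdX : 0 < X.V.degCycle (divPow ops D X.dim X.V.fundCycle))
    (hdU : 0 < U.V.degCycle (divPow ops B U.dim U.V.fundCycle)) (hnum : HomEqNum W X)
    (hmix : ∀ j z, (X.prod U).IsCyc j z → W.cl (X.prod U) z ∈
      Submodule.span W.K {w | ∃ x y, AS W X x ∧ w = ext W x y}) :
    HodgeType W (X.prod U) (ops.pull (fst X U) D + ops.pull (snd X U) B) ↔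
      HodgeType W X D ∧ HodgeType W U B := by
  obtain ⟨f, F, hf⟩ := exists_lw hD hHLX
  obtain ⟨g, G, hg⟩ := exists_lw hB hHLU
  have hst : Stable W X f := stable_of_lefschetzA F.hD F.sl2
    (lefschetzA_of_D hD hHLX hnum)
  have hS := mem_tens_of_mix hnum hmix
  exact ⟨fun h => ⟨hodge_left F G hdU h, hodge_right F G hdX h⟩,
    fun h => hodge_prod_of hS F hf hHLX hst h.1 G hg h.2⟩

end Pool.Agent.Y154.HT
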