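import Pool.Agent.W484.HS.Fin
import Pool.Agent.W484.TB.Pair
import Pool.Agent.Y154.HT.Fac

/-!
# The conjecture of Hodge type for products of almost all abelian varieties with varieties of small
Frobenius rank over a number field
-/

set_option autoImplicit false

open CategoryTheory AlgebraicGeometry

universe u v

namespace Pool.Agent.Y154.HT

open Module Polynomial Pool.Agent.H914 Pool.Agent.H914.VarClass Pool.Agent.H914.VarClass.Obj
  Pool.Agent.H914.WeilCohomology Pool.Agent.H281R3.HT Pool.Agent.W552 Pool.Agent.W484.AA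
  Pool.Agent.W521.Frob Pool.Agent.W521.Count Pool.Agent.W521.Bad Pool.Agent.W521.Descent
  Pool.Agent.W521.Density Pool.Agent.W484.HS Pool.Agent.W484.TB

/-- The eigenvalues of `f` are roots of a nonzero polynomial with integral coefficients all of whose
roots in `ℂ` have powers which lie in a group generated by the nonzero elements of the number field
`E` and `r` numbers. -/
def SmallRankE {K : Type*} [Field K] {R : Type*} [Ring R] [Algebra K R] (f : R →ₐ[K] R)
    (E : IntermediateField ℚ ℂ) (r : ℕ) : Prop :=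
  ∃ χ : ℤ[X], χ ≠ 0 ∧ (∀ (ρ : K) (c : R), c ≠ 0 → f c = ρ • c → aeval ρ χ = 0) ∧
    RankLEOver E r {ρ : ℂ | aeval ρ χ = 0}

section good

variable {k : Type u} [Field k] {𝒱 : VarClass k}
variable {ops : CycleOps 𝒱} {W : WeilCohomology.{u, v} ops} {Y : 𝒱.Obj}

variable {I : Type} [Finite I] (g : I → ℕ) (E : IntermediateField ℚ ℂ) [FiniteDimensional ℚ E]
  {q : ℕ} (hq : q ≠ 0) (r : ℕ) (hr : ∀ i, r < g i)
  (x : (Σ i, Fin (g i)) → ℤ) (hx : GoodU (splitPrimes E) g q x)

include hq hr hx

/-- The algebraic classes on the product. -/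
theorem alg_mem_mixE [IsAlgClosed W.K] {s : ℕ} (hs : 0 < s) {A : Polarized 𝒱}
    {f : A.X ⟶ A.X}
    (hA : IsAbelianFrobenius W q s (fun i => weil q (polys g x i)) A f) {f' : Y ⟶ Y}
    (hY : SmallRankE (W.map f') E r)
    (hF : FrobeniusOnCycles W (A.X.prod Y) (pairMap f f') (q ^ s)) (i : ℕ) (z)
    (hz : (A.X.prod Y).IsCyc i z) : W.cl (A.X.prod Y) z ∈ mixSpan W A.X Y := by
  obtain ⟨χ₀, hχ₀, hχ0, hrank₀⟩ := hY
  set χ : ℚ[X] := χ₀.map (Int.castRingHom ℚ) with hχdef
  have hχ : χ ≠ 0 := (Polynomial.map_ne_zero_iff (RingHom.injective_int _)).2 hχ₀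
  have hrank : RankLEOver E r {ρ : ℂ | aeval ρ χ = 0} := by
    convert hrank₀ using 3
    change aeval _ (χ₀.map (algebraMap ℤ ℚ)) = 0 ↔ _
    rw [aeval_map_algebraMap]
  obtain ⟨m, hm, hm'⟩ := hF i z hz
  have hpull : ∀ (m : ℕ) (z : (A.X.prod Y).Cycles), W.cl _ ((ops.pull (pairMap f f'))^[m] z) =
      (W.map (pairMap f f'))^[m] (W.cl _ z) := by
    intro m
    induction m with
    | zero => intro z; rfl
    | succ m ih =>
      intro z
      rw [Function.iterate_succ_apply', Function.iterate_succ_apply', W.cl_pull, ih]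
  rw [hpull] at hm'
  have hQ : (q : W.K) ^ s ≠ 0 := pow_ne_zero _ (by exact_mod_cast hq)
  refine mem_mixSpan (Z := {z : W.K // ∃ i, aeval z (weil q (polys g x i)) = 0}) f f'
    (fun z => (z : W.K) ^ s) ((q : W.K) ^ s) hQ hA.generated (eigen_span hA) hA.tate ?_ m i hm _ ?_
  · intro ρ hρ
    exact exactPair_field_over g E hq r hr x hx s hs χ hχ hrank ρ (root_of_eigen hχ0 hρ)
  · rw [hm']
    congr 1
    push_cast
    rw [← pow_mul, mul_comm m i]
    ring

omit hr in
/-- The conjecture `D` for the abelian variety. -/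
theorem homEqNum_abelianE (hg : ∀ i, 0 < g i) {s : ℕ} (hs : 0 < s) {A : Polarized 𝒱}
    {f : A.X ⟶ A.X}
    (hA : IsAbelianFrobenius W q s (fun i => weil q (polys g x i)) A f) : HomEqNum W A.X := by
  refine homEqNum_gen (Z := {z : W.K // ∃ i, aeval z (weil q (polys g x i)) = 0}) f
    (fun z => (z : W.K) ^ s) (q ^ s) (pow_ne_zero _ hq) hA.divisor hA.degree hA.cycles
    hA.generated (eigen_span hA) ?_ ?_
  · intro c hc hc'
    refine hA.tate c hc ?_
    rw [hc']
    push_cast
    rfl
  · have h1 := exactPair_field_over g E hq 0 hg x hx s hs (X - 1 : ℚ[X])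
      (Polynomial.X_sub_C_ne_zero 1) (K := W.K) ?_ (1 : W.K) (by simp)
    · push_cast
      exact h1
    · refine ⟨fun _ => 1, fun _ => one_ne_zero, fun ρ hρ => ⟨1, 1, 0, one_pos, E.one_mem,
        one_ne_zero, ?_⟩⟩
      have h1 : ρ - 1 = 0 := by simpa using hρ
      rw [sub_eq_zero.1 h1]
      simp

end good

/-- The polarization has positive degree, and the hard Lefschetz theorem holds for it.  By the
theorem of Deligne this is true for all ample divisors. -/
structure IsHardLefschetz {k : Type u} [Field k] {𝒱 : VarClass k} {ops : CycleOps 𝒱}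
    (W : WeilCohomology.{u, v} ops) (Y : Polarized 𝒱) : Prop where
  divisor : Y.X.IsCyc 1 Y.D
  degree : 0 < Y.X.V.degCycle (divPow ops Y.D Y.X.dim Y.X.V.fundCycle)
  hardLefschetz : HardLefschetz W Y.X Y.D

/-- The conjecture of Hodge type for the products of the abelian varieties `A` of type `F` (see
`IsAbelianFrobenius`) with all varieties `Y` of rank at most `r` over `E`: for every algebraically
closed field, every class of smooth projective varieties over it closed under products, every Weil
cohomology with algebraically closed coefficient field, every polarized `A` with a Frobenius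
endomorphism `f` of type `F` relative to the field with `q ^ s` elements, and every polarized `Y`
with a Frobenius endomorphism `f'` relative to the same field of rank at most `r` over `E`, both
satisfying the hard Lefschetz theorem:

* the conjecture of Hodge type (for homological equivalence) holds for `A × Y` if and only if it
  holds for `A` and for `Y` (here `A × Y` is polarized by the sum `D × Y + A × B` of the
  divisors `D` of `A` and `B` of `Y`);
* every divisor on `A × Y` is homologically equivalent to a divisor `D × Y + A × B`;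
* homological and numerical equivalence coincide on `A × Y` if and only if they coincide on `Y`;
  in this case the conjecture of Hodge type for numerical equivalence holds for `A × Y` if and only
  if it holds for `A` and for `Y`. -/
def HodgeForRankE (E : IntermediateField ℚ ℂ) (q r : ℕ) {I : Type} (F : I → ℤ[X]) : Prop :=
  ∀ (k : Type u) [Field k] [IsAlgClosed k] (𝒱 : VarClass k) (ops : CycleOps 𝒱)
    (W : WeilCohomology.{u, v} ops) [IsAlgClosed W.K] (s : ℕ), 0 < s →
    ∀ (A Y : Polarized 𝒱) (f : A.X ⟶ A.X) (f' : Y.X ⟶ Y.X),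
      IsAbelianFrobenius W q s F A f → IsHardLefschetz W A → IsHardLefschetz W Y →
      SmallRankE (W.map f') E r → FrobeniusOnCycles W (A.X.prod Y.X) (pairMap f f') (q ^ s) →
      (HodgeType W (A.prod ops Y).X (A.prod ops Y).D ↔
        HodgeType W A.X A.D ∧ HodgeType W Y.X Y.D) ∧
      (∀ C, (A.X.prod Y.X).IsCyc 1 C → ∃ (D : A.X.Cycles) (B : Y.X.Cycles), A.X.IsCyc 1 D ∧
        Y.X.IsCyc 1 B ∧ W.cl (A.X.prod Y.X) C = W.cl (A.X.prod Y.X)
          (ops.pull (fst A.X Y.X) D + ops.pull (snd A.X Y.X) B)) ∧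
      (HomEqNum W (A.X.prod Y.X) ↔ HomEqNum W Y.X) ∧
      (HomEqNum W Y.X → (NumHodge ops (A.prod ops Y).X (A.prod ops Y).D ↔
        NumHodge ops A.X A.D ∧ NumHodge ops Y.X Y.D))

theorem hodgeForRankE_of_good {I : Type} [Finite I] (g : I → ℕ) (E : IntermediateField ℚ ℂ)
    [FiniteDimensional ℚ E] {q : ℕ} (hq : q ≠ 0) (r : ℕ) (hr : ∀ i, r < g i)
    (x : (Σ i, Fin (g i)) → ℤ) (hx : GoodU (splitPrimes E) g q x) :
    HodgeForRankE.{u, v} E q r (fun i => weil q (polys g x i)) := by
  intro k _ _ 𝒱 ops W _ s hs A Y f f' hA hLA hLY hY hF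
  have hAD := homEqNum_abelianE g E hq x hx (fun i => (Nat.zero_le r).trans_lt (hr i)) hs hA
  have hmix := alg_mem_mixE g E hq r hr x hx hs hA hY hF
  have hD : (A.X.prod Y.X).IsCyc 1 (A.prod ops Y).D :=
    SmVar.IsCyc.add (ops.pull_mem _ hLA.divisor) (ops.pull_mem _ hLY.divisor)
  have hiff : HodgeType W (A.prod ops Y).X (A.prod ops Y).D ↔
      HodgeType W A.X A.D ∧ HodgeType W Y.X Y.D :=
    hodge_iff hLA.divisor hLY.divisor hLA.hardLefschetz hLY.hardLefschetz hLA.degree hLY.degree
      hAD hmix
  refine ⟨hiff, fun C hC => divisor_split hAD hmix hC,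
    ⟨fun h => homEqNum_right hLA.divisor hLA.degree h, fun h => homEqNum_prod hAD h hmix⟩,
    fun hYD => ?_⟩
  have hprod := homEqNum_prod hAD hYD hmix
  refine ⟨fun h => ?_, fun h => ?_⟩
  · obtain ⟨h1, h2⟩ := hiff.1 (hodge_of_num hD hprod h)
    exact ⟨num_of_hodge hLA.divisor hAD h1, num_of_hodge hLY.divisor hYD h2⟩
  · exact num_of_hodge hD hprod (hiff.2 ⟨hodge_of_num hLA.divisor hAD h.1,
      hodge_of_num hLY.divisor hYD h.2⟩)

end Pool.Agent.Y154.HT
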